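import Pool.Agent.W2helper65.DL.Tools

/-!
# Assembly (JobF) of the D0L first-difference project (MP_52de8b_co, frozen S08765)
-/

set_option autoImplicit false
open Filter

namespace Pool.Agent.W2helper65.DL
open Pool.Agent.W2helper68.DL

theorem length_flatMap_wd {A B : Type} {φ : A → List B} {y : ℤ → A} {x : ℤ → B} {c : ℤ → ℤ}
    (h : IsSub φ y x c) (p : ℤ) (n : ℕ) : (((wd y p n).flatMap φ).length : ℤ) = c (p + n) - c p := by
  induction n with
  | zero => simp [wd]
  | succ n ih =>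
    have h1 := h.step (p + n)
    rw [wd_add, wd_one, List.flatMap_append, List.length_append, List.flatMap_singleton]
    push_cast
    rw [ih, show p + ((n : ℤ) + 1) = p + n + 1 by ring, h1]
    ring

theorem two_mul_le_length {A B : Type} {φ : A → List B} (h : ∀ b, 2 ≤ (φ b).length) (z : List A) :
    2 * z.length ≤ (z.flatMap φ).length := by
  induction z with
  | nil => simp
  | cons a z ih =>
    rw [List.flatMap_cons, List.length_append, List.length_cons]
    have := h a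
    omega

theorem length_le_mul {A B : Type} [Fintype A] (φ : A → List B) :
    ∃ M : ℕ, ∀ z : List A, (z.flatMap φ).length ≤ M * z.length := by
  classical
  refine ⟨∑ a, (φ a).length, fun z => ?_⟩
  induction z with
  | nil => simp
  | cons a z ih =>
    rw [List.flatMap_cons, List.length_append, List.length_cons, mul_add, mul_one]
    have : (φ a).length ≤ ∑ a, (φ a).length :=
      Finset.single_le_sum (f := fun a => (φ a).length) (fun _ _ => Nat.zero_le _) (Finset.mem_univ a)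
    omega

theorem finite_short {A : Type} [Fintype A] (n : ℕ) : {w : List A | w.length < n}.Finite :=
  List.finite_length_lt A n

/-- One level of the structure: contexts, borders, and the compatibility with `U`. -/
structure Lvl {A B : Type} (φ : A → List B) (y : ℤ → A) (x : ℤ → B) (Q D : ℕ)
    (g : Finset (Ctx A D) → Finset (Ctx B D)) (l r : Finset (Ctx A D) → List B) (L : ℕ) :
    Prop where
  fwd : ∀ P z, Bsp P → z ∈ ZZ y D P → Bsp (g P) ∧ l P ++ z.flatMap φ ++ r P ∈ ZZ x D (g P)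
  bwd : ∀ P w, Bsp P → w ∈ ZZ x D P → L ≤ w.length → ¬ InU Q D w →
    ∃ P' z, Bsp P' ∧ g P' = P ∧ z ∈ ZZ y D P' ∧ w = l P' ++ z.flatMap φ ++ r P'
  uni : ∀ P1 P2 z1 z2, Bsp P1 → Bsp P2 → g P1 = g P2 → z1 ∈ ZZ y D P1 → z2 ∈ ZZ y D P2 →
    l P1 ++ z1.flatMap φ ++ r P1 = l P2 ++ z2.flatMap φ ++ r P2 →
    L ≤ (l P1 ++ z1.flatMap φ ++ r P1).length → ¬ InU Q D (l P1 ++ z1.flatMap φ ++ r P1) →
    z1 = z2 ∧ l P1 = l P2 ∧ r P1 = r P2
  inU : ∀ P z, Bsp P → z ∈ ZZ y D P → L ≤ z.length →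
    (InU Q D (l P ++ z.flatMap φ ++ r P) ↔ InU Q D z)

theorem Lvl.mono {A B : Type} {φ : A → List B} {y : ℤ → A} {x : ℤ → B} {Q D : ℕ}
    {g : Finset (Ctx A D) → Finset (Ctx B D)} {l r : Finset (Ctx A D) → List B} {L L' : ℕ}
    (h : Lvl φ y x Q D g l r L) (hL : L ≤ L') : Lvl φ y x Q D g l r L' where
  fwd := h.fwd
  bwd := fun P w h1 h2 h3 h4 => h.bwd P w h1 h2 (hL.trans h3) h4
  uni := fun P1 P2 z1 z2 h1 h2 h3 h4 h5 h6 h7 h8 =>
    h.uni P1 P2 z1 z2 h1 h2 h3 h4 h5 h6 (hL.trans h7) h8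
  inU := fun P z h1 h2 h3 => h.inU P z h1 h2 (hL.trans h3)

/-- the level structure from Jobs B1, B2 -/
theorem exists_lvl {A B : Type} [Fintype A] [Fintype B] [DecidableEq A] [DecidableEq B]
    (hB1 : JobB1) (hB2 : JobB2) (hR : JobR)
    {φ : A → List B} {y : ℤ → A} {x : ℤ → B} {c e : ℤ → ℤ} {Λ K Q0 : ℤ} (hsub : IsSub φ y x c)
    (hy : Syn y y e Λ K Q0) (hx : Syn y x c Λ K Q0) {Q : ℕ} (hQ : Λ * Q0 ≤ Q) :
    ∃ D0 : ℕ, ∀ D : ℕ, D0 ≤ D → ∃ (g : Finset (Ctx A D) → Finset (Ctx B D))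
      (l r : Finset (Ctx A D) → List B) (L : ℕ), Lvl φ y x Q D g l r L := by
  have hΛ := hx.toCut.two_le
  have hQ0 := hx.Q01
  obtain ⟨D1, h1⟩ := hB1 A B φ y x c Λ K Q0 hsub hx Q (by nlinarith)
  obtain ⟨D2, h2⟩ := hB2 A B y x c e Λ K Q0 hy hx Q hQ hR
  refine ⟨max (max D1 D2.toNat) 1, fun D hD => ?_⟩
  have hD1 : D1 ≤ D := by omega
  have hD2 : D2 ≤ D := by omega
  have hD3 : 1 ≤ D := by omega
  obtain ⟨g, l, r, n1, hlen, hocc, hfwd, hbwd, huni⟩ := h1 D hD1
  obtain ⟨L0, h3⟩ := h2 D hD2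
  refine ⟨g, l, r, max n1 L0.toNat, hfwd, ?_, ?_, ?_⟩
  · exact fun P w a1 a2 a3 a4 => hbwd P w a1 a2 (by omega) a4
  · exact fun P1 P2 z1 z2 a1 a2 a3 a4 a5 a6 a7 a8 =>
      huni P1 P2 z1 z2 a1 a2 a3 a4 a5 a6 (by omega) a8
  · intro P z hP hz hL
    have hP' := hP
    obtain ⟨⟨κ, hκ, κ', hκ', hD4, hne⟩, ⟨κ₁, hκ₁, κ₁', hκ₁', hD5, hne'⟩⟩ := hP'
    obtain ⟨p, hp1, hp2⟩ := hz κ hκ
    have hp3 := hocc P z hP hz p hp1 (hp2 ▸ hκ)
    have e1 : ((z.flatMap φ).length : ℤ) = c (p + z.length) - c p := by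
      have := length_flatMap_wd hsub p z.length
      rwa [hp1] at this
    have e2 : ((l P ++ z.flatMap φ ++ r P).length : ℤ) =
        (l P).length + (c (p + z.length) - c p) + (r P).length := by
      simp only [List.length_append]
      push_cast
      rw [e1]
    obtain ⟨h4, h5⟩ := h3 p z.length (l P).length (r P).length (by omega) (hlen P).1 (by omega)
      (hlen P).2 (by omega)
    have k1 : InU Q D (l P ++ z.flatMap φ ++ r P) ↔
        ∃ q, 1 ≤ q ∧ q ≤ (Q : ℤ) ∧ Per x q (c p - (l P).length + D)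
          (c (p + z.length) + (r P).length - D) := by
      rw [← hp3, inU_wd, e2]
      rw [show c p - ((l P).length : ℤ) +
        (((l P).length : ℤ) + (c (p + z.length) - c p) + (r P).length) - D =
          c (p + z.length) + (r P).length - D by ring]
    have k2 : InU Q D z ↔ ∃ q, 1 ≤ q ∧ q ≤ (Q : ℤ) ∧ Per y q (p + D) (p + z.length - D) := by
      conv_lhs => rw [← hp1]
      rw [inU_wd]
    rw [k1, k2]
    refine ⟨h4, fun h => h5 h ?_ ?_⟩
    · -- left special
      have hex : ∃ κ'' ∈ P, y (p - 1) ≠ κ''.1 ⟨0, hD4⟩ := by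
        by_cases hc : y (p - 1) = κ.1 ⟨0, hD4⟩
        · exact ⟨κ', hκ', fun h' => hne (hc.symm.trans h')⟩
        · exact ⟨κ, hκ, hc⟩
      obtain ⟨κ'', hκ'', hne''⟩ := hex
      obtain ⟨p', hp1', hp2'⟩ := hz κ'' hκ''
      refine ⟨p', agr_of_wd (hp1.trans hp1'.symm), fun h' => hne'' ?_⟩
      rw [← hp2', ctx_fst]
      exact h'
    · have hex : ∃ κ'' ∈ P, y (p + z.length) ≠ κ''.2 ⟨0, hD5⟩ := by
        by_cases hc : y (p + z.length) = κ₁.2 ⟨0, hD5⟩
        · exact ⟨κ₁', hκ₁', fun h' => hne' (hc.symm.trans h')⟩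
        · exact ⟨κ₁, hκ₁, hc⟩
      obtain ⟨κ'', hκ'', hne''⟩ := hex
      obtain ⟨p', hp1', hp2'⟩ := hz κ'' hκ''
      refine ⟨p', agr_of_wd (hp1.trans hp1'.symm), fun h' => hne'' ?_⟩
      rw [← hp2', ctx_snd]
      exact h'

/-- the words of type `P` -/
def SS {A : Type} (y : ℤ → A) (Q D L : ℕ) (P : Finset (Ctx A D)) : Set (List A) :=
  {z | Bsp P ∧ z ∈ ZZ y D P ∧ ¬ InU Q D z ∧ L ≤ z.length}

/-- JobA applied to the words of all types. -/
theorem good_SS {A B : Type} [Fintype A] [Fintype B] [DecidableEq A] [DecidableEq B]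
    (hA : JobA) {φ : A → List B} {ψ : A → List A} {y : ℤ → A}
    (hφ : ∀ b, 2 ≤ (φ b).length) (hψ : ∀ b, 2 ≤ (ψ b).length) {Q D : ℕ}
    {g : Finset (Ctx A D) → Finset (Ctx A D)} {l r : Finset (Ctx A D) → List A} {L : ℕ}
    (hK : ∀ P, (l P).length ≤ L ∧ (r P).length ≤ L)
    (h : Lvl ψ y y Q D g l r L) (hL : 1 ≤ L) (P : Finset (Ctx A D)) (κ : ℕ) :
    GoodF (fun n => ({z | z ∈ SS y Q D L P ∧ (z.flatMap φ).length + κ < n}.ncard : ℝ)) := by
  classical
  obtain ⟨M, hM⟩ := length_le_mul ψ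
  refine hA B A (Finset (Ctx A D)) ψ φ g (SS y Q D L) l r hψ ?_ ?_ ?_ ?_ ?_ P κ
  · intro b hb
    have := hφ b
    rw [hb] at this
    simp at this
  · rintro P z ⟨h1, h2, h3, h4⟩
    obtain ⟨h5, h6⟩ := h.fwd P z h1 h2
    refine ⟨h5, h6, fun h7 => h3 ((h.inU P z h1 h2 h4).1 h7), ?_⟩
    have := two_mul_le_length hψ z
    simp only [List.length_append]
    omega
  · refine ⟨M * L + 2 * L + 1, ?_⟩
    rintro P w ⟨h1, h2, h3, h4⟩ h5
    obtain ⟨P', z, h6, h7, h8, h9⟩ := h.bwd P w h1 h2 h4 h3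
    have hz : L ≤ z.length := by
      by_contra hc
      push Not at hc
      have e1 := hM z
      have e2 := hK P'
      have e3 : w.length = (l P').length + (z.flatMap ψ).length + (r P').length := by
        rw [h9]; simp only [List.length_append]
      have e4 : M * z.length ≤ M * L := Nat.mul_le_mul_left _ hc.le
      omega
    refine ⟨P', z, h7, ⟨h6, h8, fun h10 => h3 ?_, hz⟩, h9⟩
    rw [h9]
    exact (h.inU P' z h6 h8 hz).2 h10
  · rintro P z ⟨h1, h2, h3, h4⟩ z' ⟨h1', h2', h3', h4'⟩ he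
    refine (h.uni P P z z' h1 h1 rfl h2 h2' (by rw [he]) ?_ ?_).1
    · have := two_mul_le_length hψ z
      simp only [List.length_append]
      omega
    · exact fun h7 => h3 ((h.inU P z h1 h2 h4).1 h7)
  · rintro P ⟨-, -, -, h4⟩
    simp only [List.length_nil] at h4
    omega

/-- Moebius expansion of a sum over words of a function of the context set. -/
theorem sum_contexts {A : Type} [Fintype A] {D : ℕ} (E : List A → Finset (Ctx A D))
    [DecidableEq (Ctx A D)]
    (f μ : Finset (Ctx A D) → ℤ) (hμ : ∀ E, f E = ∑ P ∈ E.powerset, μ P) (V : Finset (List A)) :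
    ∑ w ∈ V, f (E w) = ∑ P, μ P * ((V.filter fun w => P ⊆ E w).card : ℤ) := by
  classical
  have h1 : ∀ w ∈ V, f (E w) = ∑ P, if P ⊆ E w then μ P else 0 := by
    intro w _
    rw [hμ, ← Finset.sum_filter]
    refine Finset.sum_congr ?_ fun _ _ => rfl
    ext P
    simp
  rw [Finset.sum_congr rfl h1, Finset.sum_comm]
  refine Finset.sum_congr rfl fun P _ => ?_
  rw [← Finset.sum_filter, Finset.sum_const, nsmul_eq_mul, mul_comm]

/-- The number of words of type `P` of the image level. -/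
theorem good_N {A B : Type} [Fintype A] [Fintype B] [DecidableEq A] [DecidableEq B]
    {φ : A → List B} {y : ℤ → A} {x : ℤ → B}
    (hφ : ∀ b, 2 ≤ (φ b).length) {Q D : ℕ}
    {g : Finset (Ctx A D) → Finset (Ctx B D)} {l r : Finset (Ctx A D) → List B} {L : ℕ}
    (h : Lvl φ y x Q D g l r L)
    (hS : ∀ (P : Finset (Ctx A D)) (κ : ℕ),
      GoodF (fun n => ({z | z ∈ SS y Q D L P ∧ (z.flatMap φ).length + κ < n}.ncard : ℝ)))
    (P : Finset (Ctx B D)) (hP : Bsp P) :
    GoodF (fun n => ({w | w ∈ ZZ x D P ∧ ¬ InU Q D w ∧ w.length < n}.ncard : ℝ)) := by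
  classical
  -- borders
  let J : Finset (List B × List B) := Finset.univ.image fun P' : Finset (Ctx A D) => (l P', r P')
  let hc : List B × List B → Finset (Ctx A D) → Prop := fun j E =>
    ∃ P' ⊆ E, Bsp P' ∧ g P' = P ∧ l P' = j.1 ∧ r P' = j.2
  let f : List B × List B → Finset (Ctx A D) → ℤ := fun j E => if hc j E then 1 else 0
  have hbase : ∀ κ n : ℕ, {z : List A | L ≤ z.length ∧ ¬ InU Q D z ∧
      (z.flatMap φ).length + κ < n}.Finite := by
    intro κ n
    refine (finite_short (A := A) n).subset ?_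
    rintro z ⟨-, -, h3⟩
    have := two_mul_le_length hφ z
    show z.length < n
    omega
  let base : ℕ → ℕ → Finset (List A) := fun κ n => (hbase κ n).toFinset
  let κ : List B × List B → ℕ := fun j => j.1.length + j.2.length
  let Z : List B × List B → ℕ → Finset (List A) := fun j n =>
    (base (κ j) n).filter fun z => hc j (EE y D z)
  have hZ : ∀ j, GoodF (fun n => ((Z j n).card : ℝ)) := by
    intro j
    obtain ⟨μ, hμ1, hμ2⟩ := exists_moebius (f j)
    have e1 : ∀ n, ((Z j n).card : ℤ) =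
        ∑ P', μ P' * (((base (κ j) n).filter fun w => P' ⊆ EE y D w).card : ℤ) := by
      intro n
      rw [← sum_contexts (EE y D) (f j) μ hμ1, Finset.card_filter]
      push_cast
      rfl
    have e2 : (fun n => ((Z j n).card : ℝ)) = fun n =>
        ∑ P', (μ P' : ℝ) * ({z | z ∈ SS y Q D L P' ∧ (z.flatMap φ).length + κ j < n}.ncard : ℝ) := by
      funext n
      have : (((Z j n).card : ℤ) : ℝ) = ((∑ P', μ P' *
        (((base (κ j) n).filter fun w => P' ⊆ EE y D w).card : ℤ) : ℤ) : ℝ) := by rw [e1 n]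
      push_cast at this
      rw [this]
      refine Finset.sum_congr rfl fun P' _ => ?_
      by_cases hP' : Bsp P'
      · congr 2
        rw [← Set.ncard_coe_finset]
        congr 1
        ext z
        simp only [Finset.coe_filter, Set.mem_ofPred_eq, base, Set.Finite.mem_toFinset, SS, mem_ZZ]
        constructor
        · rintro ⟨⟨a1, a2, a3⟩, a4⟩
          exact ⟨⟨hP', a4, a2, a1⟩, a3⟩
        · rintro ⟨⟨a0, a4, a2, a1⟩, a3⟩
          exact ⟨⟨a1, a2, a3⟩, a4⟩
      · have : μ P' = 0 := by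
          refine hμ2 P' fun P'' h'' => ?_
          show (if hc j P'' then (1 : ℤ) else 0) = 0
          rw [if_neg]
          rintro ⟨P3, h3, h4, -⟩
          exact hP' (Bsp.mono (h3.trans h'') h4)
        rw [this]
        simp
    rw [e2]
    exact GoodF.sum _ _ fun P' _ => GoodF.mul (hS P' (κ j)) _
  have hZs : GoodF (fun n => ∑ j ∈ J, ((Z j n).card : ℝ)) := GoodF.sum _ _ fun j _ => hZ j
  obtain ⟨M, hM⟩ := length_le_mul φ
  -- bound for borders
  have hbord : ∃ K : ℕ, ∀ j ∈ J, j.1.length ≤ K ∧ j.2.length ≤ K := by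
    refine ⟨∑ j ∈ J, (j.1.length + j.2.length), fun j hj => ?_⟩
    have : j.1.length + j.2.length ≤ ∑ j ∈ J, (j.1.length + j.2.length) :=
      Finset.single_le_sum (f := fun j : List B × List B => j.1.length + j.2.length)
        (fun _ _ => Nat.zero_le _) hj
    omega
  obtain ⟨K, hK⟩ := hbord
  let L' : ℕ := M * L + 2 * K + L + 1
  refine GoodF.close hZs ({w : List B | w.length < L'}.ncard : ℝ) fun n => ?_
  have hWfin : {w | w ∈ ZZ x D P ∧ ¬ InU Q D w ∧ w.length < n}.Finite :=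
    (finite_short (A := B) n).subset fun w hw => hw.2.2
  let W : Finset (List B) := hWfin.toFinset
  have hW : ({w | w ∈ ZZ x D P ∧ ¬ InU Q D w ∧ w.length < n}.ncard : ℕ) = W.card := by
    rw [← Set.ncard_coe_finset]
    simp [W]
  let I : List B × List B → Finset (List B) := fun j =>
    (Z j n).image fun z => j.1 ++ z.flatMap φ ++ j.2
  -- elements of Z
  have hZmem : ∀ j z, z ∈ Z j n ↔ (L ≤ z.length ∧ ¬ InU Q D z ∧ (z.flatMap φ).length + κ j < n) ∧
      hc j (EE y D z) := by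
    intro j z
    simp only [Z, Finset.mem_filter, base, Set.Finite.mem_toFinset, Set.mem_ofPred_eq]
  have key : ∀ j1 j2 z1 z2, z1 ∈ Z j1 n → z2 ∈ Z j2 n →
      j1.1 ++ z1.flatMap φ ++ j1.2 = j2.1 ++ z2.flatMap φ ++ j2.2 → j1 = j2 ∧ z1 = z2 := by
    intro j1 j2 z1 z2 h1 h2 he
    obtain ⟨⟨a1, a2, a3⟩, P1, b1, b2, b3, b4, b5⟩ := (hZmem _ _).1 h1
    obtain ⟨⟨a1', a2', a3'⟩, P2, b1', b2', b3', b4', b5'⟩ := (hZmem _ _).1 h2
    have hz1 := mem_ZZ.2 b1
    have hz2 := mem_ZZ.2 b1'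
    rw [← b4, ← b5, ← b4', ← b5'] at he
    have := h.uni P1 P2 z1 z2 b2 b2' (b3.trans b3'.symm) hz1 hz2 he (by
      have := two_mul_le_length hφ z1
      simp only [List.length_append]
      omega) (fun h7 => a2 ((h.inU P1 z1 b2 hz1 a1).1 h7))
    refine ⟨Prod.ext ?_ ?_, this.1⟩
    · rw [← b4, ← b4', this.2.1]
    · rw [← b5, ← b5', this.2.2]
  have hIcard : ∀ j, (I j).card = (Z j n).card := by
    intro j
    refine Finset.card_image_of_injOn ?_
    intro z1 h1 z2 h2 he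
    exact (key j j z1 z2 h1 h2 he).2
  have hdisj : ∀ j1 ∈ J, ∀ j2 ∈ J, j1 ≠ j2 → Disjoint (I j1) (I j2) := by
    intro j1 _ j2 _ hne
    rw [Finset.disjoint_left]
    intro w hw1 hw2
    obtain ⟨z1, h1, e1⟩ := Finset.mem_image.1 hw1
    obtain ⟨z2, h2, e2⟩ := Finset.mem_image.1 hw2
    exact hne (key j1 j2 z1 z2 h1 h2 (e1.trans e2.symm)).1
  have hU : (J.biUnion I).card = ∑ j ∈ J, (Z j n).card := by
    rw [Finset.card_biUnion hdisj]
    exact Finset.sum_congr rfl fun j _ => hIcard j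
  have hsub : J.biUnion I ⊆ W := by
    intro w hw
    obtain ⟨j, hj, hw⟩ := Finset.mem_biUnion.1 hw
    obtain ⟨z, hz, rfl⟩ := Finset.mem_image.1 hw
    obtain ⟨⟨a1, a2, a3⟩, P1, b1, b2, b3, b4, b5⟩ := (hZmem _ _).1 hz
    have hz1 := mem_ZZ.2 b1
    simp only [W, Set.Finite.mem_toFinset, Set.mem_ofPred_eq]
    obtain ⟨c1, c2⟩ := h.fwd P1 z b2 hz1
    refine ⟨?_, ?_, ?_⟩
    · rw [← b4, ← b5, ← b3]; exact c2
    · rw [← b4, ← b5]; exact fun h7 => a2 ((h.inU P1 z b2 hz1 a1).1 h7)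
    · simp only [List.length_append, κ] at a3 ⊢
      omega
  have hdiff : ((W \ J.biUnion I).card : ℝ) ≤ ({w : List B | w.length < L'}.ncard : ℝ) := by
    have h1 : (↑(W \ J.biUnion I) : Set (List B)) ⊆ {w : List B | w.length < L'} := by
      intro w hw
      rw [Finset.mem_coe, Finset.mem_sdiff] at hw
      obtain ⟨hw1, hw2⟩ := hw
      by_contra hcon
      have hlen : L' ≤ w.length := not_lt.1 hcon
      simp only [W, Set.Finite.mem_toFinset, Set.mem_ofPred_eq] at hw1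
      obtain ⟨a1, a2, a3⟩ := hw1
      obtain ⟨P', z, b1, b2, b3, b4⟩ := h.bwd P w hP a1 (by omega) a2
      apply hw2
      have hj : (l P', r P') ∈ J := Finset.mem_image.2 ⟨P', Finset.mem_univ _, rfl⟩
      have hlen2 : w.length = (l P').length + (z.flatMap φ).length + (r P').length := by
        rw [b4]; simp only [List.length_append]
      have hz : L ≤ z.length := by
        by_contra hc'
        push Not at hc'
        have e1 := hM z
        have e2 := hK _ hj
        simp only at e2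
        have e4 : M * z.length ≤ M * L := Nat.mul_le_mul_left _ hc'.le
        omega
      refine Finset.mem_biUnion.2 ⟨_, hj, Finset.mem_image.2 ⟨z, (hZmem _ _).2 ⟨⟨hz, ?_, ?_⟩, ?_⟩,
        b4.symm⟩⟩
      · intro h7
        apply a2
        rw [b4]
        exact (h.inU P' z b1 b3 hz).2 h7
      · simp only [κ]; omega
      · exact ⟨P', mem_ZZ.1 b3, b1, b2, rfl, rfl⟩
    have h2 := Set.ncard_le_ncard h1 (finite_short L')
    rw [Set.ncard_coe_finset] at h2
    exact_mod_cast h2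
  have hcard : W.card = (W \ J.biUnion I).card + ∑ j ∈ J, (Z j n).card := by
    rw [← hU, Finset.card_sdiff_add_card_eq_card hsub]
  rw [hW, hcard]
  push_cast
  rw [add_sub_cancel_right, abs_of_nonneg (by positivity)]
  exact hdiff

/-- **Job F.** -/
theorem jobF : JobF := by
  classical
  intro hA hB1 hB2 hC hC2 hR hT A B _ _ _ _ φ₀ ψ₀ y x c e Λ K Q0 hφ₀ hψ₀ hy hx
  -- make all blocks of length at least two
  let φ : A → List B := fun b => if b ∈ Set.range y then φ₀ b else [x 0, x 0]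
  let ψ : A → List A := fun b => if b ∈ Set.range y then ψ₀ b else [b, b]
  have hφe : ∀ p, φ (y p) = φ₀ (y p) := fun p => if_pos ⟨p, rfl⟩
  have hψe : ∀ p, ψ (y p) = ψ₀ (y p) := fun p => if_pos ⟨p, rfl⟩
  have hφs : IsSub φ y x c := by
    refine ⟨fun p => ?_, fun p t h => ?_⟩
    · rw [hφe]; exact hφ₀.step p
    · have h' : t < (φ₀ (y p)).length := by rw [← hφe]; exact h
      rw [hφ₀.val p t h']
      congr 1
      exact (hφe p).symm
  have hψs : IsSub ψ y y e := by
    refine ⟨fun p => ?_, fun p t h => ?_⟩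
    · rw [hψe]; exact hψ₀.step p
    · have h' : t < (ψ₀ (y p)).length := by rw [← hψe]; exact h
      rw [hψ₀.val p t h']
      congr 1
      exact (hψe p).symm
  have hφ2 : ∀ b, 2 ≤ (φ b).length := by
    intro b
    by_cases hb : b ∈ Set.range y
    · obtain ⟨p, rfl⟩ := hb
      have h1 := hx.lo p
      have h2 := hφs.step p
      omega
    · show 2 ≤ (if b ∈ Set.range y then φ₀ b else [x 0, x 0]).length
      rw [if_neg hb]
      simp
  have hψ2 : ∀ b, 2 ≤ (ψ b).length := by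
    intro b
    by_cases hb : b ∈ Set.range y
    · obtain ⟨p, rfl⟩ := hb
      have h1 := hy.lo p
      have h2 := hψs.step p
      omega
    · show 2 ≤ (if b ∈ Set.range y then ψ₀ b else [b, b]).length
      rw [if_neg hb]
      simp
  have hΛ := hx.toCut.two_le
  have hQ0 := hx.Q01
  obtain ⟨Q, hQ⟩ : ∃ Q : ℕ, (Q : ℤ) = Λ * Q0 :=
    ⟨(Λ * Q0).toNat, Int.toNat_of_nonneg (by nlinarith)⟩
  have hQ1 : 1 ≤ Q := by
    have : (1 : ℤ) ≤ Q := by rw [hQ]; nlinarith
    omega
  obtain ⟨D1, h1⟩ := exists_lvl hB1 hB2 hR hφs hy hx hQ.ge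
  obtain ⟨D2, h2⟩ := exists_lvl hB1 hB2 hR hψs hy hy hQ.ge
  obtain ⟨D3, h3⟩ := hT A B φ ψ y x c e Λ K Q0 hφs hψs hy hx Q hQ.ge hR hA
  set D : ℕ := D1 + D2 + D3 + 1 with hDdef
  have hD : 0 < D := by omega
  obtain ⟨g1, l1, r1, L1, hL1⟩ := h1 D (by omega)
  obtain ⟨g2, l2, r2, L2, hL2⟩ := h2 D (by omega)
  have hTri := h3 D (by omega)
  -- a common threshold, larger than the borders
  let Kb : ℕ := ∑ P : Finset (Ctx A D), ((l2 P).length + (r2 P).length)
  have hKb : ∀ P : Finset (Ctx A D), (l2 P).length + (r2 P).length ≤ Kb := by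
    intro P
    exact Finset.single_le_sum (f := fun P : Finset (Ctx A D) => (l2 P).length + (r2 P).length)
      (fun _ _ => Nat.zero_le _) (Finset.mem_univ P)
  let L : ℕ := L1 + L2 + Kb + 1
  have hφL := hL1.mono (show L1 ≤ L by omega)
  have hψL := hL2.mono (show L2 ≤ L by omega)
  have hS := fun P κ => good_SS hA hφ2 hψ2 (fun P => by
    have := hKb P
    constructor <;> omega) hψL (by omega) P κ
  have hN := fun P hP => good_N hφ2 hφL hS P hP
  -- the sum of the multiplicities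
  obtain ⟨hU1, hU2, hU3⟩ := hC2 B x Q D hQ1
  obtain ⟨K', hK'⟩ := hC B x {w | InU Q D w} hU1 hU2 hU3
  have hVfin : ∀ n : ℕ, {w | w ∈ Lang x ∧ ¬ InU Q D w ∧ w.length < n}.Finite := fun n =>
    (finite_short (A := B) n).subset fun w hw => hw.2.2
  let V : ℕ → Finset (List B) := fun n => (hVfin n).toFinset
  have hV : ∀ n w, w ∈ V n ↔ w ∈ Lang x ∧ ¬ InU Q D w ∧ w.length < n := by
    intro n w
    simp only [V, Set.Finite.mem_toFinset, Set.mem_ofPred_eq]
  obtain ⟨μ, hμ1, hμ2⟩ := exists_moebius (fE (A := B) hD)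
  have hsum : ∀ n, ((∑ w ∈ V n, mm x w : ℤ) : ℝ) =
      ∑ P, (μ P : ℝ) * ({w | w ∈ ZZ x D P ∧ ¬ InU Q D w ∧ w.length < n}.ncard : ℝ) := by
    intro n
    have e1 : ∑ w ∈ V n, mm x w = ∑ w ∈ V n, fE hD (EE x D w) :=
      Finset.sum_congr rfl fun w hw => mm_eq hD ((hV n w).1 hw).1
    rw [e1, sum_contexts (EE x D) (fE hD) μ hμ1]
    push_cast
    refine Finset.sum_congr rfl fun P _ => ?_
    by_cases hP : Bsp P
    · congr 2
      rw [← Set.ncard_coe_finset]
      congr 1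
      ext w
      simp only [Finset.coe_filter, Set.mem_ofPred_eq, hV, mem_ZZ]
      constructor
      · rintro ⟨⟨a1, a2, a3⟩, a4⟩
        exact ⟨a4, a2, a3⟩
      · rintro ⟨a4, a2, a3⟩
        refine ⟨⟨?_, a2, a3⟩, a4⟩
        obtain ⟨⟨κ, hκ, -⟩, -⟩ := hP
        obtain ⟨i, hi, -⟩ := mem_EE.1 (a4 hκ)
        exact ⟨i, hi⟩
    · have : μ P = 0 := hμ2 P fun P' h' => fE_eq_zero hD fun h'' => hP (Bsp.mono h' h'')
      rw [this]
      simp
  have hgood : GoodF (fun n => ((∑ w ∈ V n, mm x w : ℤ) : ℝ)) := by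
    have : (fun n => ((∑ w ∈ V n, mm x w : ℤ) : ℝ)) = fun n =>
        ∑ P ∈ Finset.univ.filter fun P : Finset (Ctx B D) => Bsp P, (μ P : ℝ) *
          ({w | w ∈ ZZ x D P ∧ ¬ InU Q D w ∧ w.length < n}.ncard : ℝ) := by
      funext n
      rw [hsum, Finset.sum_filter]
      refine Finset.sum_congr rfl fun P _ => ?_
      split_ifs with hP
      · rfl
      · have : μ P = 0 := hμ2 P fun P' h' => fE_eq_zero hD fun h'' => hP (Bsp.mono h' h'')
        rw [this]
        simp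
    rw [this]
    exact GoodF.sum _ _ fun P hP => GoodF.mul (hN P (Finset.mem_filter.1 hP).2) _
  refine GoodF.close (GoodF.add hgood hTri) (K' : ℝ) fun n => ?_
  have h4 := hK' n (V n) (fun w => hV n w)
  show |((LF x (n + 1)).card : ℝ) - ((LF x n).card : ℝ)
      - (((∑ w ∈ V n, mm x w : ℤ) : ℝ)
        + (({w | w ∈ Tri x {w | InU Q D w} ∧ w.length < n}.ncard : ℕ) : ℝ))| ≤ (K' : ℝ)
  exact_mod_cast h4

end Pool.Agent.W2helper65.DL
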