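import Pool.Agent.W2helper68.DL.Stm2

/-!
# Tools for the assembly (JobF): good functions, Moebius inversion over finite sets, words of a bi-infinite sequence
-/

set_option autoImplicit false
set_option linter.unusedSectionVars false
open Filter

namespace Pool.Agent.W2helper65.DL
open Pool.Agent.W2helper68.DL

theorem GoodF.add {f g : ℕ → ℝ} (hf : GoodF f) (hg : GoodF g) : GoodF (fun n => f n + g n) := by
  obtain ⟨C1, C1', K1, h1⟩ := hf
  obtain ⟨C2, C2', K2, h2⟩ := hg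
  refine ⟨C1 + C2, C1' + C2', K1 + K2, fun n hn => ?_⟩
  have e : f n + g n - ((C1 + C2) * Real.log n + (C1' + C2') * Real.log (Real.log n)) =
      (f n - (C1 * Real.log n + C1' * Real.log (Real.log n))) +
        (g n - (C2 * Real.log n + C2' * Real.log (Real.log n))) := by ring
  rw [e]
  exact (abs_add_le _ _).trans (add_le_add (h1 n hn) (h2 n hn))

theorem GoodF.mul {f : ℕ → ℝ} (hf : GoodF f) (c : ℝ) : GoodF (fun n => c * f n) := by
  obtain ⟨C1, C1', K1, h1⟩ := hf
  refine ⟨c * C1, c * C1', |c| * K1, fun n hn => ?_⟩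
  have e : c * f n - (c * C1 * Real.log n + c * C1' * Real.log (Real.log n)) =
      c * (f n - (C1 * Real.log n + C1' * Real.log (Real.log n))) := by ring
  rw [e, abs_mul]
  exact mul_le_mul_of_nonneg_left (h1 n hn) (abs_nonneg c)

theorem GoodF.zero : GoodF (fun _ => 0) := ⟨0, 0, 0, fun n _ => by simp⟩

theorem GoodF.close {f g : ℕ → ℝ} (hg : GoodF g) (K : ℝ) (h : ∀ n, |f n - g n| ≤ K) : GoodF f := by
  obtain ⟨C1, C1', K1, h1⟩ := hg
  refine ⟨C1, C1', K + K1, fun n hn => ?_⟩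
  have e : f n - (C1 * Real.log n + C1' * Real.log (Real.log n)) =
      (f n - g n) + (g n - (C1 * Real.log n + C1' * Real.log (Real.log n))) := by ring
  rw [e]
  exact (abs_add_le _ _).trans (add_le_add (h n) (h1 n hn))

theorem GoodF.sum {ι : Type*} (s : Finset ι) (f : ι → ℕ → ℝ) (h : ∀ i ∈ s, GoodF (f i)) :
    GoodF (fun n => ∑ i ∈ s, f i n) := by
  classical
  induction s using Finset.induction_on with
  | empty => simpa using GoodF.zero
  | insert a s ha ih =>
    simp only [Finset.sum_insert ha]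
    exact GoodF.add (h a (Finset.mem_insert_self a s))
      (ih fun i hi => h i (Finset.mem_insert_of_mem hi))

/-- Moebius inversion over subsets (existence form). -/
theorem exists_moebius {X : Type*} [DecidableEq X] (f : Finset X → ℤ) :
    ∃ μ : Finset X → ℤ, (∀ E, f E = ∑ P ∈ E.powerset, μ P) ∧
      ∀ P, (∀ P' ⊆ P, f P' = 0) → μ P = 0 := by
  let μ : Finset X → ℤ := fun s => Finset.strongInduction (p := fun _ => ℤ)
    (fun s ih => f s - ∑ t ∈ s.ssubsets.attach, ih t.1 (Finset.mem_ssubsets.1 t.2)) s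
  have hμ : ∀ s, μ s = f s - ∑ t ∈ s.ssubsets, μ t := by
    intro s
    show Finset.strongInduction (p := fun _ => ℤ) _ s = _
    rw [Finset.strongInduction_eq]
    congr 1
    exact Finset.sum_attach s.ssubsets μ
  have h1 : ∀ E, f E = ∑ P ∈ E.powerset, μ P := by
    intro E
    have h2 := hμ E
    have h3 : ∑ t ∈ E.ssubsets, μ t + μ E = ∑ P ∈ E.powerset, μ P :=
      Finset.sum_erase_add E.powerset μ (Finset.mem_powerset_self E)
    rw [← h3, h2]
    ring
  refine ⟨μ, h1, ?_⟩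
  intro P
  induction P using Finset.strongInduction with
  | H P ih =>
    intro hP
    rw [hμ P, hP P (Finset.Subset.refl P), zero_sub, neg_eq_zero]
    refine Finset.sum_eq_zero fun t ht => ?_
    have ht' := Finset.mem_ssubsets.1 ht
    exact ih t ht' fun P' hP' => hP P' (hP'.trans ht'.1)

section words
variable {A : Type}

@[simp] theorem length_wd (x : ℤ → A) (i : ℤ) (n : ℕ) : (wd x i n).length = n := by
  simp [wd]

theorem wd_getElem? (x : ℤ → A) (i : ℤ) (n t : ℕ) (h : t < n) : (wd x i n)[t]? = some (x (i + t)) := by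
  simp [wd, h]

theorem wd_eq_iff (x y : ℤ → A) (i j : ℤ) (n : ℕ) :
    wd x i n = wd y j n ↔ ∀ t : ℕ, t < n → x (i + t) = y (j + t) := by
  unfold wd
  rw [List.ofFn_inj, funext_iff]
  exact ⟨fun h t ht => h ⟨t, ht⟩, fun h t => h t.1 t.2⟩

theorem wd_add (x : ℤ → A) (i : ℤ) (m n : ℕ) : wd x i (m + n) = wd x i m ++ wd x (i + m) n := by
  apply List.ext_getElem
  · simp
  · intro t h1 h2
    simp only [length_wd] at h1
    by_cases h : t < m
    · rw [List.getElem_append_left (by simpa using h)]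
      simp [wd]
    · rw [List.getElem_append_right (by simpa using h)]
      simp only [wd, List.getElem_ofFn, List.length_ofFn]
      congr 1
      omega

theorem wd_one (x : ℤ → A) (i : ℤ) : wd x i 1 = [x i] := by simp [wd]

theorem agr_of_wd {x : ℤ → A} {i j : ℤ} {n : ℕ} (h : wd x i n = wd x j n) : Agr x i j 0 n := by
  rw [wd_eq_iff] at h
  intro t h1 h2
  have := h t.toNat (by omega)
  rwa [Int.toNat_of_nonneg h1] at this

/-- dictionary between `InU` and `Per` -/
theorem inU_wd (x : ℤ → A) (Q D : ℕ) (i : ℤ) (n : ℕ) :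
    InU Q D (wd x i n) ↔ ∃ q : ℤ, 1 ≤ q ∧ q ≤ Q ∧ Per x q (i + D) (i + n - D) := by
  constructor
  · rintro ⟨q, h1, h2, h3⟩
    refine ⟨q, by omega, by omega, fun t ht1 ht2 => ?_⟩
    have h4 := h3 (t - i).toNat (by omega) (by rw [length_wd]; omega)
    rw [wd_getElem? _ _ _ _ (by omega), wd_getElem? _ _ _ _ (by omega)] at h4
    have h5 := Option.some.inj h4
    push_cast at h5
    rw [Int.toNat_of_nonneg (by omega), show i + (t - i) = t by ring,
      show i + (t - i + q) = t + q by ring] at h5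
    exact h5
  · rintro ⟨q, h1, h2, h3⟩
    refine ⟨q.toNat, by omega, by omega, fun t ht1 ht2 => ?_⟩
    rw [length_wd] at ht2
    rw [wd_getElem? _ _ _ _ (by omega), wd_getElem? _ _ _ _ (by omega)]
    have := h3 (i + t) (by omega) (by omega)
    rw [this]
    congr 2
    push_cast
    rw [Int.toNat_of_nonneg (by omega)]
    ring

variable [Fintype A]

open Classical in
/-- the set of contexts of a word -/
noncomputable def EE (x : ℤ → A) (D : ℕ) (w : List A) : Finset (Ctx A D) :=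
  Finset.univ.filter fun κ => ∃ i, wd x i w.length = w ∧ ctx x D i (i + w.length) = κ

theorem mem_EE {x : ℤ → A} {D : ℕ} {w : List A} {κ : Ctx A D} :
    κ ∈ EE x D w ↔ ∃ i, wd x i w.length = w ∧ ctx x D i (i + w.length) = κ := by
  simp [EE]

theorem mem_ZZ {x : ℤ → A} {D : ℕ} {w : List A} {P : Finset (Ctx A D)} :
    w ∈ ZZ x D P ↔ P ⊆ EE x D w := by
  constructor
  · intro h κ hκ
    exact mem_EE.2 (h κ hκ)
  · intro h κ hκ
    exact mem_EE.1 (h hκ)

theorem EE_nonempty {x : ℤ → A} {D : ℕ} {w : List A} (h : w ∈ Lang x) : EE x D w ≠ ∅ := by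
  obtain ⟨i, hi⟩ := h
  intro he
  have : ctx x D i (i + w.length) ∈ EE x D w := mem_EE.2 ⟨i, hi, rfl⟩
  rw [he] at this
  exact absurd this (Finset.notMem_empty _)

theorem Bsp.mono {D : ℕ} {P P' : Finset (Ctx A D)} (h : P ⊆ P') (hP : Bsp P) : Bsp P' := by
  obtain ⟨⟨a, ha, b, hb, h1, h2⟩, ⟨c, hc, d, hd, h3, h4⟩⟩ := hP
  exact ⟨⟨a, h ha, b, h hb, h1, h2⟩, ⟨c, h hc, d, h hd, h3, h4⟩⟩

open Classical in
/-- bilateral multiplicity as a function of the set of contexts -/
noncomputable def fE {D : ℕ} (hD : 0 < D) (E : Finset (Ctx A D)) : ℤ :=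
  if E = ∅ then 0 else
    ((E.image fun κ => (κ.1 ⟨0, hD⟩, κ.2 ⟨0, hD⟩)).card : ℤ) - ((E.image fun κ => κ.1 ⟨0, hD⟩).card : ℤ)
      - ((E.image fun κ => κ.2 ⟨0, hD⟩).card : ℤ) + 1

theorem ctx_fst (x : ℤ → A) {D : ℕ} (hD : 0 < D) (i j : ℤ) : (ctx x D i j).1 ⟨0, hD⟩ = x (i - 1) := by
  simp [ctx]

theorem ctx_snd (x : ℤ → A) {D : ℕ} (hD : 0 < D) (i j : ℤ) : (ctx x D i j).2 ⟨0, hD⟩ = x j := by
  simp [ctx]

theorem cons_mem_Lang {x : ℤ → A} {w : List A} {a : A} :
    a :: w ∈ Lang x ↔ ∃ i, wd x i w.length = w ∧ x (i - 1) = a := by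
  constructor
  · rintro ⟨i, hi⟩
    rw [List.length_cons, Nat.add_comm, wd_add, wd_one] at hi
    simp only [List.cons_append, List.nil_append, List.cons.injEq, Nat.cast_one] at hi
    exact ⟨i + 1, hi.2, by rw [show i + 1 - 1 = i by ring]; exact hi.1⟩
  · rintro ⟨i, hi, ha⟩
    refine ⟨i - 1, ?_⟩
    rw [List.length_cons, Nat.add_comm, wd_add, wd_one]
    simp only [List.cons_append, List.nil_append, List.cons.injEq, Nat.cast_one]
    rw [show i - 1 + 1 = i by ring]
    exact ⟨ha, hi⟩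

theorem append_mem_Lang {x : ℤ → A} {w : List A} {b : A} :
    w ++ [b] ∈ Lang x ↔ ∃ i, wd x i w.length = w ∧ x (i + w.length) = b := by
  constructor
  · rintro ⟨i, hi⟩
    rw [List.length_append, List.length_singleton, wd_add, wd_one] at hi
    have h := List.append_inj hi (by simp)
    exact ⟨i, h.1, by simpa using h.2⟩
  · rintro ⟨i, hi, ha⟩
    refine ⟨i, ?_⟩
    rw [List.length_append, List.length_singleton, wd_add, wd_one, hi, ha]

theorem both_mem_Lang {x : ℤ → A} {w : List A} {a b : A} :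
    a :: (w ++ [b]) ∈ Lang x ↔ ∃ i, wd x i w.length = w ∧ x (i - 1) = a ∧ x (i + w.length) = b := by
  rw [cons_mem_Lang]
  constructor
  · rintro ⟨i, hi, ha⟩
    rw [List.length_append, List.length_singleton, wd_add, wd_one] at hi
    have h := List.append_inj hi (by simp)
    exact ⟨i, h.1, ha, by simpa using h.2⟩
  · rintro ⟨i, hi, ha, hb⟩
    refine ⟨i, ?_, ha⟩
    rw [List.length_append, List.length_singleton, wd_add, wd_one, hi, hb]

theorem mm_eq {x : ℤ → A} {D : ℕ} (hD : 0 < D) {w : List A} (hw : w ∈ Lang x) :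
    mm x w = fE hD (EE x D w) := by
  classical
  unfold mm fE
  rw [if_neg (EE_nonempty hw)]
  have h1 : {p : A × A | p.1 :: (w ++ [p.2]) ∈ Lang x} =
      ↑((EE x D w).image fun κ => (κ.1 ⟨0, hD⟩, κ.2 ⟨0, hD⟩)) := by
    ext p
    rw [Set.mem_ofPred_eq, both_mem_Lang, Finset.mem_coe, Finset.mem_image]
    constructor
    · rintro ⟨i, hi, ha, hb⟩
      refine ⟨_, mem_EE.2 ⟨i, hi, rfl⟩, ?_⟩
      rw [ctx_fst, ctx_snd, ha, hb]
    · rintro ⟨κ, hκ, he⟩
      obtain ⟨i, hi, h⟩ := mem_EE.1 hκ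
      rw [← h, ctx_fst, ctx_snd] at he
      exact ⟨i, hi, congrArg Prod.fst he, congrArg Prod.snd he⟩
  have h2 : {a : A | a :: w ∈ Lang x} = ↑((EE x D w).image fun κ => κ.1 ⟨0, hD⟩) := by
    ext p
    rw [Set.mem_ofPred_eq, cons_mem_Lang, Finset.mem_coe, Finset.mem_image]
    constructor
    · rintro ⟨i, hi, ha⟩
      refine ⟨_, mem_EE.2 ⟨i, hi, rfl⟩, ?_⟩
      rw [ctx_fst, ha]
    · rintro ⟨κ, hκ, he⟩
      obtain ⟨i, hi, h⟩ := mem_EE.1 hκ
      rw [← h, ctx_fst] at he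
      exact ⟨i, hi, he⟩
  have h3 : {b : A | w ++ [b] ∈ Lang x} = ↑((EE x D w).image fun κ => κ.2 ⟨0, hD⟩) := by
    ext p
    rw [Set.mem_ofPred_eq, append_mem_Lang, Finset.mem_coe, Finset.mem_image]
    constructor
    · rintro ⟨i, hi, ha⟩
      refine ⟨_, mem_EE.2 ⟨i, hi, rfl⟩, ?_⟩
      rw [ctx_snd, ha]
    · rintro ⟨κ, hκ, he⟩
      obtain ⟨i, hi, h⟩ := mem_EE.1 hκ
      rw [← h, ctx_snd] at he
      exact ⟨i, hi, he⟩
  rw [h1, h2, h3, Set.ncard_coe_finset, Set.ncard_coe_finset, Set.ncard_coe_finset]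

theorem fE_eq_zero {D : ℕ} (hD : 0 < D) {E : Finset (Ctx A D)} (h : ¬ Bsp E) : fE hD E = 0 := by
  classical
  unfold fE
  split_ifs with h0
  · rfl
  obtain ⟨κ₀, hκ₀⟩ := Finset.nonempty_iff_ne_empty.2 h0
  unfold Bsp at h
  rw [not_and_or] at h
  rcases h with h | h
  · push Not at h
    have h' : ∀ κ ∈ E, κ.1 ⟨0, hD⟩ = κ₀.1 ⟨0, hD⟩ := fun κ hκ => h κ hκ κ₀ hκ₀ hD
    have e1 : (E.image fun κ => κ.1 ⟨0, hD⟩) = {κ₀.1 ⟨0, hD⟩} := by
      ext a
      rw [Finset.mem_image, Finset.mem_singleton]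
      constructor
      · rintro ⟨κ, hκ, rfl⟩; exact h' κ hκ
      · rintro rfl; exact ⟨κ₀, hκ₀, rfl⟩
    have e2 : (E.image fun κ => (κ.1 ⟨0, hD⟩, κ.2 ⟨0, hD⟩)) =
        (E.image fun κ => κ.2 ⟨0, hD⟩).image fun b => (κ₀.1 ⟨0, hD⟩, b) := by
      rw [Finset.image_image]
      refine Finset.image_congr fun κ hκ => ?_
      simp only [Function.comp]
      rw [h' κ hκ]
    rw [e1, e2, Finset.card_image_of_injective _ (Prod.mk_right_injective _), Finset.card_singleton]
    push_cast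
    ring
  · push Not at h
    have h' : ∀ κ ∈ E, κ.2 ⟨0, hD⟩ = κ₀.2 ⟨0, hD⟩ := fun κ hκ => h κ hκ κ₀ hκ₀ hD
    have e1 : (E.image fun κ => κ.2 ⟨0, hD⟩) = {κ₀.2 ⟨0, hD⟩} := by
      ext a
      rw [Finset.mem_image, Finset.mem_singleton]
      constructor
      · rintro ⟨κ, hκ, rfl⟩; exact h' κ hκ
      · rintro rfl; exact ⟨κ₀, hκ₀, rfl⟩
    have e2 : (E.image fun κ => (κ.1 ⟨0, hD⟩, κ.2 ⟨0, hD⟩)) =
        (E.image fun κ => κ.1 ⟨0, hD⟩).image fun a => (a, κ₀.2 ⟨0, hD⟩) := by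
      rw [Finset.image_image]
      refine Finset.image_congr fun κ hκ => ?_
      simp only [Function.comp]
      rw [h' κ hκ]
    rw [e1, e2, Finset.card_image_of_injective _ (Prod.mk_left_injective _), Finset.card_singleton]
    push_cast
    ring

end words

end Pool.Agent.W2helper65.DL
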